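import Pool.Agent.L0h54.HV.Stm

/-!
# Project HV, module KER: the variance over residue classes, expansion of the square
-/

set_option autoImplicit false

namespace Pool.Agent.L0h57.HV.KERM

open Finset
open scoped Classical
open Pool.Agent.H306R2.RZ (js)
open Pool.Agent.L0h41.MQ (AP cf odd mem_AP AP_card)
open Pool.Agent.L0h54.HV
open ArithmeticFunction (vonMangoldt)

theorem sq_exp (I : Finset ℕ) (x : ℕ → ℝ) : (∑ p ∈ I, x p) ^ 2 = ∑ p ∈ I, x p ^ 2 +
    2 * ∑ w ∈ (I ×ˢ I).filter (fun w => w.1 < w.2), x w.1 * x w.2 := by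
  rw [sq, sum_mul_sum, sum_filter, sum_product]
  have h : ∀ p ∈ I, ∀ p' ∈ I, x p * x p' = (if p < p' then x p * x p' else 0) +
      (if p' < p then x p' * x p else 0) + (if p = p' then x p * x p' else 0) := by
    intro p _ p' _
    rcases lt_trichotomy p p' with h | h | h
    · rw [if_pos h, if_neg (by omega), if_neg (by omega)]; ring
    · rw [if_neg (by omega), if_neg (by omega), if_pos h]; ring
    · rw [if_neg (by omega), if_pos h, if_neg (by omega)]; ring
  rw [sum_congr rfl fun p hp => sum_congr rfl (h p hp)]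
  simp only [sum_add_distrib]
  have h2 : ∑ p ∈ I, ∑ p' ∈ I, (if p' < p then x p' * x p else 0) =
      ∑ p ∈ I, ∑ p' ∈ I, (if p < p' then x p * x p' else 0) := sum_comm
  have h3 : ∑ p ∈ I, ∑ p' ∈ I, (if p = p' then x p * x p' else 0) = ∑ p ∈ I, x p ^ 2 := by
    refine sum_congr rfl fun p hp => ?_
    rw [sum_ite_eq, if_pos hp, sq]
  rw [h2, h3]
  ring

/-- the odd powers of `p` in the progression -/
noncomputable def G (y z q a p : ℕ) : Finset ℕ :=
  (AP y z q a).filter (fun n => (IsPrimePow n ∧ ¬ IsSquare n) ∧ n.minFac = p)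

/-- the odd powers of `p` in the interval -/
noncomputable def A (y z p : ℕ) : Finset ℕ :=
  (Ioc y z).filter (fun n => (IsPrimePow n ∧ ¬ IsSquare n) ∧ n.minFac = p)

theorem mem_G {y z q a p n : ℕ} : n ∈ G y z q a p ↔
    ((y < n ∧ n ≤ z) ∧ n ≡ a [MOD q]) ∧ (IsPrimePow n ∧ ¬ IsSquare n) ∧ n.minFac = p := by
  unfold G
  rw [mem_filter, mem_AP]

theorem mem_A {y z p n : ℕ} : n ∈ A y z p ↔
    (y < n ∧ n ≤ z) ∧ (IsPrimePow n ∧ ¬ IsSquare n) ∧ n.minFac = p := by
  unfold A
  rw [mem_filter, mem_Ioc]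

theorem cf_le {N y z q a : ℕ} (hN : 1 ≤ N) (hz : z ≤ N) (f : ℕ → ℝ) (hf : ∀ n, |f n| ≤ 1) (p : ℕ) :
    |cf y z q a f p| ≤ Real.log N * (G y z q a p).card := by
  have hlog0 : 0 ≤ Real.log N := Real.log_nonneg (by exact_mod_cast hN)
  unfold cf
  refine (abs_sum_le_sum_abs _ _).trans ?_
  unfold G
  rw [mul_comm, ← nsmul_eq_mul]
  refine sum_le_card_nsmul _ _ _ fun n hn => ?_
  rw [mem_filter, mem_AP] at hn
  rw [abs_mul, abs_of_nonneg ArithmeticFunction.vonMangoldt_nonneg]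
  have h3 : vonMangoldt n ≤ Real.log N := ArithmeticFunction.vonMangoldt_le_log.trans
    (Real.log_le_log (by exact_mod_cast (by omega : 0 < n)) (by exact_mod_cast (by omega : n ≤ N)))
  calc vonMangoldt n * |f n| ≤ Real.log N * 1 := mul_le_mul h3 (hf n) (abs_nonneg _) hlog0
    _ = _ := mul_one _

theorem A_card {N y z : ℕ} (hz : z ≤ N) (p : ℕ) : (A y z p).card ≤ Nat.log 2 N + 1 := by
  have h4 : A y z p ⊆ (range (Nat.log 2 N + 1)).image (fun j => p ^ j) := by
    intro n hn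
    rw [mem_A] at hn
    obtain ⟨⟨h5, h6⟩, ⟨⟨r, j, hr, hj, hrj⟩, _⟩, h7⟩ := hn
    rw [← Nat.prime_iff] at hr
    have h8 : r = p := by
      rw [← h7, ← hrj, hr.pow_minFac hj.ne']
    rw [mem_image]
    refine ⟨j, ?_, by rw [← h8, hrj]⟩
    rw [mem_range, Nat.lt_succ_iff]
    apply Nat.le_log_of_pow_le (by norm_num)
    calc 2 ^ j ≤ r ^ j := Nat.pow_le_pow_left hr.two_le j
      _ = n := hrj
      _ ≤ N := by omega
  have h5 := (card_le_card h4).trans card_image_le
  rwa [card_range] at h5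

theorem G_sub {y z q a p : ℕ} : G y z q a p ⊆ A y z p := by
  intro n hn
  rw [mem_G] at hn
  rw [mem_A]
  exact ⟨hn.1.1, hn.2⟩

/-- the congruent pairs -/
noncomputable def M (y z q : ℕ) (w : ℕ × ℕ) : Finset (ℕ × ℕ) :=
  (A y z w.1 ×ˢ A y z w.2).filter (fun x => x.1 ≡ x.2 [MOD q])

theorem M_card {N y z : ℕ} (hz : z ≤ N) (q : ℕ) (w : ℕ × ℕ) :
    (M y z q w).card ≤ (Nat.log 2 N + 1) ^ 2 := by
  unfold M
  refine (card_filter_le _ _).trans ?_
  rw [card_product, sq]
  exact Nat.mul_le_mul (A_card hz _) (A_card hz _)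

theorem sum_G {q : ℕ} (hq : 1 ≤ q) (y z : ℕ) (w : ℕ × ℕ) :
    ∑ a ∈ range q, (G y z q a w.1).card * (G y z q a w.2).card = (M y z q w).card := by
  rw [card_eq_sum_card_fiberwise (f := fun x : ℕ × ℕ => x.1 % q) (t := range q) (by
    intro x _
    exact mem_coe.2 (mem_range.2 (Nat.mod_lt _ hq)))]
  refine sum_congr rfl fun a ha => ?_
  rw [← card_product]
  congr 1
  ext x
  rw [mem_product, mem_G, mem_G, mem_filter, M, mem_filter, mem_product, mem_A, mem_A]
  have ha' : a % q = a := Nat.mod_eq_of_lt (mem_range.1 ha)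
  unfold Nat.ModEq
  rw [ha']
  constructor
  · rintro ⟨⟨⟨h1, h2⟩, h3⟩, ⟨h4, h5⟩, h6⟩
    exact ⟨⟨⟨⟨h1, h3⟩, h4, h6⟩, h2.trans h5.symm⟩, h2⟩
  · rintro ⟨⟨⟨⟨h1, h3⟩, h4, h6⟩, h5⟩, h2⟩
    exact ⟨⟨⟨h1, h2⟩, h3⟩, ⟨h4, h5.symm.trans h2⟩, h6⟩

/-- the number of all congruent pairs -/
theorem sum_M (N y z q : ℕ) (hq : 1 ≤ q) (hyz : y ≤ z) :
    ∑ w ∈ Pr N, ((M y z q w).card : ℝ) ≤ ((z : ℝ) - y) ^ 2 / q := by
  obtain ⟨T, hT⟩ : ∃ T, T = (Ioc y z).sigma (fun n => (AP y z q n).erase n) := ⟨_, rfl⟩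
  have h1 : ∑ w ∈ Pr N, (M y z q w).card ≤ T.card := by
    rw [← card_sigma]
    apply card_le_card_of_injOn (fun x => ⟨x.2.1, x.2.2⟩)
    · rintro ⟨w, x⟩ hx
      rw [mem_coe, mem_sigma, Pr, mem_filter] at hx
      obtain ⟨⟨h1, h2⟩, h3⟩ := hx
      simp only [M, mem_filter, mem_product, mem_A] at h3
      rw [mem_coe, hT, mem_sigma, mem_Ioc, mem_erase, mem_AP]
      refine ⟨h3.1.1.1, ?_, h3.1.2.1, h3.2.symm⟩
      intro h4
      have h5 := h3.1.1.2.2
      have h6 := h3.1.2.2.2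
      simp only at h4
      rw [h4] at h6
      simp only at h2
      omega
    · rintro ⟨w, x⟩ hx ⟨w', x'⟩ hx' h
      rw [mem_coe, mem_sigma] at hx hx'
      have h3 := hx.2
      have h3' := hx'.2
      simp only [M, mem_filter, mem_product, mem_A] at h3 h3'
      simp only [Sigma.mk.injEq, heq_eq_eq] at h
      have e : x = x' := Prod.ext h.1 h.2
      subst e
      have e2 : w = w' := Prod.ext (h3.1.1.2.2.symm.trans h3'.1.1.2.2)
        (h3.1.2.2.2.symm.trans h3'.1.2.2.2)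
      subst e2
      rfl
  have h2 : (T.card : ℝ) ≤ ((z : ℝ) - y) ^ 2 / q := by
    rw [hT, card_sigma]
    push_cast
    have h3 : ∀ n ∈ Ioc y z, (((AP y z q n).erase n).card : ℝ) ≤ ((z : ℝ) - y) / q := by
      intro n hn
      rw [mem_Ioc] at hn
      have h4 : n ∈ AP y z q n := mem_AP.2 ⟨hn, Nat.ModEq.refl _⟩
      have h5 := card_erase_add_one h4
      have h6 := AP_card y z q n hyz hq
      have h7 : (((AP y z q n).erase n).card : ℝ) + 1 = (AP y z q n).card := by exact_mod_cast h5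
      linarith
    refine (sum_le_sum h3).trans ?_
    rw [sum_const, Nat.card_Ioc, nsmul_eq_mul, Nat.cast_sub hyz]
    apply le_of_eq
    ring
  calc ∑ w ∈ Pr N, ((M y z q w).card : ℝ) = ((∑ w ∈ Pr N, (M y z q w).card : ℕ) : ℝ) := by push_cast; rfl
    _ ≤ (T.card : ℝ) := by exact_mod_cast h1
    _ ≤ _ := h2

theorem ker : KER := by
  intro N q y z f hf hN hq hyz hz
  have hN1 : 1 ≤ N := by omega
  have hlog0 : 0 ≤ Real.log N := Real.log_nonneg (by exact_mod_cast hN1)
  obtain ⟨L, hL⟩ : ∃ L : ℝ, L = (Nat.log 2 N : ℝ) + 1 := ⟨_, rfl⟩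
  have hL0 : 0 ≤ L := by rw [hL]; positivity
  refine ⟨?_, ?_, ?_⟩
  · intro l hl hNl
    unfold Vo Dg Ke odd
    have h1 : ∀ a ∈ range q, (∑ p ∈ (Icc 1 N).filter Nat.Prime, cf y z q a f p * js (p : ℤ) l) ^ 2 =
        ∑ p ∈ (Icc 1 N).filter Nat.Prime, cf y z q a f p ^ 2 +
          2 * ∑ w ∈ Pr N, (cf y z q a f w.1 * js (w.1 : ℤ) l) * (cf y z q a f w.2 * js (w.2 : ℤ) l) := by
      intro a _
      rw [sq_exp]
      congr 1
      refine sum_congr rfl fun p hp => ?_
      rw [mem_filter, mem_Icc] at hp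
      have h2 : js (p : ℤ) l ^ 2 = 1 := Pool.Agent.L0h54.GC.js_sq_one p l hl (fun hd => by
        have := Nat.le_of_dvd hp.2.pos hd
        omega)
      rw [mul_pow, h2, mul_one]
    rw [sum_congr rfl h1, sum_add_distrib, ← mul_sum]
    congr 1
    rw [sum_comm (s := range q), mul_sum]
    refine sum_congr rfl fun w _ => ?_
    rw [mul_assoc, sum_mul]
    congr 1
    refine sum_congr rfl fun a _ => ?_
    ring
  · have h1 : ∀ w ∈ Pr N, Ke q y z f w ^ 2 ≤
        4 * (Real.log N ^ 2 * L) ^ 2 * ((M y z q w).card : ℝ) := by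
      intro w _
      obtain ⟨m, hm⟩ : ∃ m : ℝ, m = (M y z q w).card := ⟨_, rfl⟩
      have hm0 : 0 ≤ m := by rw [hm]; positivity
      have h2 : |∑ a ∈ range q, cf y z q a f w.1 * cf y z q a f w.2| ≤ Real.log N ^ 2 * m := by
        refine (abs_sum_le_sum_abs _ _).trans ?_
        have h3 : ∀ a ∈ range q, |cf y z q a f w.1 * cf y z q a f w.2| ≤
            Real.log N ^ 2 * (((G y z q a w.1).card * (G y z q a w.2).card : ℕ) : ℝ) := by
          intro a _
          rw [abs_mul]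
          push_cast
          calc _ ≤ (Real.log N * (G y z q a w.1).card) * (Real.log N * (G y z q a w.2).card) :=
                mul_le_mul (cf_le hN1 hz f hf _) (cf_le hN1 hz f hf _) (abs_nonneg _) (by positivity)
            _ = _ := by ring
        refine (sum_le_sum h3).trans ?_
        rw [← mul_sum, ← Nat.cast_sum, sum_G hq, hm]
      have h4 : m ≤ L ^ 2 := by
        rw [hm, hL]
        exact_mod_cast M_card hz q w
      have h5 : (∑ a ∈ range q, cf y z q a f w.1 * cf y z q a f w.2) ^ 2 ≤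
          (Real.log N ^ 2 * m) ^ 2 := by
        rw [← sq_abs]
        exact pow_le_pow_left₀ (abs_nonneg _) h2 2
      rw [← hm, Ke, mul_pow]
      calc (2 : ℝ) ^ 2 * (∑ a ∈ range q, cf y z q a f w.1 * cf y z q a f w.2) ^ 2 ≤
            2 ^ 2 * (Real.log N ^ 2 * m) ^ 2 := mul_le_mul_of_nonneg_left h5 (by norm_num)
        _ = 4 * (Real.log N ^ 2) ^ 2 * (m * m) := by ring
        _ ≤ 4 * (Real.log N ^ 2) ^ 2 * (L ^ 2 * m) :=
            mul_le_mul_of_nonneg_left (mul_le_mul_of_nonneg_right h4 hm0) (by positivity)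
        _ = _ := by ring
    refine (sum_le_sum h1).trans ?_
    rw [← mul_sum, ← hL]
    exact mul_le_mul_of_nonneg_left (sum_M N y z q hq hyz) (by positivity)
  · rw [← hL]
    unfold Dg
    have h1 : ∀ a ∈ range q, ∑ p ∈ (Icc 1 N).filter Nat.Prime, cf y z q a f p ^ 2 ≤
        Real.log N ^ 2 * L * ((AP y z q a).card : ℝ) := by
      intro a _
      have h2 : ∀ p ∈ (Icc 1 N).filter Nat.Prime, cf y z q a f p ^ 2 ≤
          Real.log N ^ 2 * L * ((G y z q a p).card : ℝ) := by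
        intro p _
        have h3 : ((G y z q a p).card : ℝ) ≤ L := by
          rw [hL]
          exact_mod_cast (card_le_card G_sub).trans (A_card hz p)
        calc cf y z q a f p ^ 2 = |cf y z q a f p| ^ 2 := (sq_abs _).symm
          _ ≤ (Real.log N * (G y z q a p).card) ^ 2 :=
              pow_le_pow_left₀ (abs_nonneg _) (cf_le hN1 hz f hf _) 2
          _ = Real.log N ^ 2 * ((G y z q a p).card : ℝ) * (G y z q a p).card := by ring
          _ ≤ Real.log N ^ 2 * L * (G y z q a p).card := by gcongr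
      refine (sum_le_sum h2).trans ?_
      rw [← mul_sum]
      refine mul_le_mul_of_nonneg_left ?_ (by positivity)
      have h4 : ∑ p ∈ (Icc 1 N).filter Nat.Prime, (G y z q a p).card ≤ (AP y z q a).card := by
        rw [← card_biUnion]
        · apply card_le_card
          rw [biUnion_subset]
          intro p _
          exact filter_subset _ _
        · intro p _ p' _ hne
          rw [Function.onFun, disjoint_left]
          intro n h3 h4
          rw [mem_G] at h3 h4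
          exact hne (h3.2.2.symm.trans h4.2.2)
      exact_mod_cast h4
    refine (sum_le_sum h1).trans ?_
    rw [← mul_sum]
    refine mul_le_mul_of_nonneg_left ?_ (by positivity)
    have h5 : ∑ a ∈ range q, (AP y z q a).card = (Ioc y z).card := by
      rw [card_eq_sum_card_fiberwise (f := fun x : ℕ => x % q) (t := range q) (by
        intro x _
        exact mem_coe.2 (mem_range.2 (Nat.mod_lt _ hq)))]
      refine sum_congr rfl fun a ha => ?_
      congr 1
      ext x
      rw [mem_AP, mem_filter, mem_Ioc]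
      unfold Nat.ModEq
      rw [Nat.mod_eq_of_lt (mem_range.1 ha)]
    rw [← Nat.cast_sum, h5, Nat.card_Ioc, Nat.cast_sub hyz]

end Pool.Agent.L0h57.HV.KERM
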