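import Pool.Agent.L0h54.HV.Stm

set_option autoImplicit false

/-!
# Fourth moment of a quadratic form in the symbols
-/

namespace Pool.Agent.L0h57.HV.BONM

open Finset
open scoped Classical
open Pool.Agent.H306R2.RZ (js LSB)
open Pool.Agent.L0h41.MQ (sg sg_pair)
open Pool.Agent.L0h54.GC (ls_fam sqi js_mul)
open Pool.Agent.L0h54.HV (Pr BON)

/-- the polynomial with coefficients `r ^ |S| c S` in the signs -/
noncomputable def wp (r : ℝ) (I : Finset ℕ) (c : Finset ℕ → ℝ) (T : Finset ℕ) : ℝ :=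
  ∑ S ∈ I.powerset, r ^ S.card * c S * ∏ p ∈ S, sg T p

lemma sg_in {b : ℕ} {T : Finset ℕ} (h : b ∈ T) : sg T b = -1 := by
  unfold sg
  rw [if_pos h]

lemma sg_out {b : ℕ} {T : Finset ℕ} (h : b ∉ T) : sg T b = 1 := by
  unfold sg
  rw [if_neg h]

lemma sg_ins {b p : ℕ} {T : Finset ℕ} (h : p ≠ b) : sg (insert b T) p = sg T p := by
  by_cases h1 : p ∈ T
  · rw [sg_in h1, sg_in (mem_insert_of_mem h1)]
  · rw [sg_out h1, sg_out (by rw [mem_insert]; push Not; exact ⟨h, h1⟩)]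

lemma wp_ins (r : ℝ) (I : Finset ℕ) (c : Finset ℕ → ℝ) (T : Finset ℕ) (b : ℕ) (hb : b ∉ I) :
    wp r (insert b I) c T = wp r I c T + r * (sg T b * wp r I (fun S => c (insert b S)) T) := by
  unfold wp
  rw [sum_powerset_insert hb, mul_sum, mul_sum]
  congr 1
  refine sum_congr rfl fun S hS => ?_
  have hbS : b ∉ S := fun h => hb (mem_powerset.1 hS h)
  rw [card_insert_of_notMem hbS, prod_insert hbS]
  ring

lemma wp_left (r : ℝ) (I : Finset ℕ) (c : Finset ℕ → ℝ) (T : Finset ℕ) (b : ℕ) (hb : b ∉ I) :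
    wp r I c (insert b T) = wp r I c T := by
  unfold wp
  refine sum_congr rfl fun S hS => ?_
  congr 1
  refine prod_congr rfl fun p hp => sg_ins ?_
  rintro rfl
  exact hb (mem_powerset.1 hS hp)

/-- Bonami's inequality for the signs `sg` -/
theorem bonami (r : ℝ) (hr : r ^ 2 = 1 / 3) (I : Finset ℕ) : ∀ c : Finset ℕ → ℝ,
    ∑ T ∈ I.powerset, wp r I c T ^ 4 ≤ 2 ^ I.card * (∑ S ∈ I.powerset, c S ^ 2) ^ 2 := by
  induction I using Finset.induction_on with
  | empty =>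
    intro c
    simp only [powerset_empty, sum_singleton, wp, card_empty, pow_zero, prod_empty, one_mul, mul_one]
    exact le_of_eq (by ring)
  | insert b I hb ih =>
    intro c
    obtain ⟨G, hG⟩ : ∃ G : Finset ℕ → ℝ, G = fun T => wp r I c T := ⟨_, rfl⟩
    obtain ⟨H, hH⟩ : ∃ H : Finset ℕ → ℝ, H = fun T => wp r I (fun S => c (insert b S)) T := ⟨_, rfl⟩
    obtain ⟨g, hg⟩ : ∃ g : ℝ, g = ∑ S ∈ I.powerset, c S ^ 2 := ⟨_, rfl⟩
    obtain ⟨h, hh⟩ : ∃ h : ℝ, h = ∑ S ∈ I.powerset, c (insert b S) ^ 2 := ⟨_, rfl⟩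
    have hg0 : 0 ≤ g := by rw [hg]; exact sum_nonneg fun S _ => sq_nonneg _
    have hh0 : 0 ≤ h := by rw [hh]; exact sum_nonneg fun S _ => sq_nonneg _
    have iG : ∑ T ∈ I.powerset, G T ^ 4 ≤ 2 ^ I.card * g ^ 2 := by
      rw [hG, hg]
      exact ih c
    have iH : ∑ T ∈ I.powerset, H T ^ 4 ≤ 2 ^ I.card * h ^ 2 := by
      rw [hH, hh]
      exact ih (fun S => c (insert b S))
    have hr4 : r ^ 4 = 1 / 9 := by
      calc r ^ 4 = (r ^ 2) ^ 2 := by ring
        _ = 1 / 9 := by rw [hr]; norm_num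
    have hn : (0:ℝ) < 2 ^ I.card := by positivity
    have hmix : ∑ T ∈ I.powerset, G T ^ 2 * H T ^ 2 ≤ 2 ^ I.card * (g * h) := by
      have hcs := sum_mul_sq_le_sq_mul_sq I.powerset (fun T => G T ^ 2) (fun T => H T ^ 2)
      have h6 : ∀ x : ℝ, (x ^ 2) ^ 2 = x ^ 4 := fun x => by ring
      simp only [h6] at hcs
      have hG4 : 0 ≤ ∑ T ∈ I.powerset, G T ^ 4 := sum_nonneg fun T _ => by positivity
      have hH4 : 0 ≤ ∑ T ∈ I.powerset, H T ^ 4 := sum_nonneg fun T _ => by positivity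
      refine (abs_le_of_sq_le_sq' ?_ (by positivity)).2
      refine hcs.trans ?_
      calc (∑ T ∈ I.powerset, G T ^ 4) * ∑ T ∈ I.powerset, H T ^ 4 ≤
          (2 ^ I.card * g ^ 2) * (2 ^ I.card * h ^ 2) := mul_le_mul iG iH hH4 (by positivity)
        _ = (2 ^ I.card * (g * h)) ^ 2 := by ring
    have h1 : ∑ T ∈ (insert b I).powerset, wp r (insert b I) c T ^ 4 =
        ∑ T ∈ I.powerset, (2 * G T ^ 4 + 4 * (G T ^ 2 * H T ^ 2) + 2 / 9 * H T ^ 4) := by
      rw [sum_powerset_insert hb, ← sum_add_distrib]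
      refine sum_congr rfl fun T hT => ?_
      have hbT : b ∉ T := fun h => hb (mem_powerset.1 hT h)
      rw [wp_ins r I c T b hb, wp_ins r I c (insert b T) b hb, wp_left r I c T b hb,
        wp_left r I _ T b hb, sg_out hbT, sg_in (mem_insert_self b T)]
      have e1 : wp r I c T = G T := by rw [hG]
      have e2 : wp r I (fun S => c (insert b S)) T = H T := by rw [hH]
      rw [e1, e2]
      have e3 : (G T + r * (1 * H T)) ^ 4 + (G T + r * (-1 * H T)) ^ 4 =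
          2 * G T ^ 4 + 12 * r ^ 2 * (G T ^ 2 * H T ^ 2) + 2 * r ^ 4 * H T ^ 4 := by ring
      rw [e3, hr, hr4]
      ring
    rw [h1, sum_add_distrib, sum_add_distrib, ← mul_sum, ← mul_sum, ← mul_sum, sum_powerset_insert hb,
      ← hg, ← hh, card_insert_of_notMem hb, pow_succ]
    have h7 : 0 ≤ (2:ℝ) ^ I.card * h ^ 2 := by positivity
    nlinarith

/-- the set of the two primes -/
def ph (w : ℕ × ℕ) : Finset ℕ := {w.1, w.2}

/-- the pair of the two elements of a set -/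
noncomputable def ps (S : Finset ℕ) : ℕ × ℕ := (∑ x ∈ S, x - S.sup id, S.sup id)

lemma ps_ph {w : ℕ × ℕ} (h : w.1 < w.2) : ps (ph w) = w := by
  have h1 : (ph w).sup id = w.2 := by
    unfold ph
    rw [sup_insert, sup_singleton]
    simp only [id_eq]
    exact sup_eq_right.2 h.le
  have h2 : ∑ x ∈ ph w, x = w.1 + w.2 := by
    unfold ph
    rw [sum_pair h.ne]
  unfold ps
  rw [h1, h2]
  ext
  · simp
  · simp

/-- the fourth moment of a quadratic form in the signs -/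
lemma quad (I : Finset ℕ) (J : Finset (ℕ × ℕ)) (hJ : ∀ w ∈ J, w.1 ∈ I ∧ w.2 ∈ I ∧ w.1 < w.2) (k : ℕ × ℕ → ℝ) :
    ∑ T ∈ I.powerset, (∑ w ∈ J, k w * (sg T w.1 * sg T w.2)) ^ 4 ≤
      2 ^ I.card * (81 * (∑ w ∈ J, k w ^ 2) ^ 2) := by
  obtain ⟨r, hr⟩ : ∃ r : ℝ, r ^ 2 = 1 / 3 := ⟨√(1 / 3), Real.sq_sqrt (by norm_num)⟩
  have hsub : J.image ph ⊆ I.powerset := by
    intro S hS
    obtain ⟨w, hw, rfl⟩ := mem_image.1 hS
    obtain ⟨h1, h2, _⟩ := hJ w hw
    rw [mem_powerset]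
    intro x hx
    unfold ph at hx
    rw [mem_insert, mem_singleton] at hx
    rcases hx with rfl | rfl
    · exact h1
    · exact h2
  have hinj : Set.InjOn ph (J : Set (ℕ × ℕ)) := by
    intro w hw w' hw' he
    rw [← ps_ph (hJ w hw).2.2, ← ps_ph (hJ w' hw').2.2, he]
  have hsum : ∀ F : Finset ℕ → ℝ, ∑ S ∈ I.powerset, (if S ∈ J.image ph then F S else 0) = ∑ w ∈ J, F (ph w) := by
    intro F
    rw [sum_ite_mem, inter_eq_right.2 hsub, sum_image hinj]
  have hb := bonami r hr I (fun S => if S ∈ J.image ph then 3 * k (ps S) else 0)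
  have e1 : ∀ T, wp r I (fun S => if S ∈ J.image ph then 3 * k (ps S) else 0) T =
      ∑ w ∈ J, k w * (sg T w.1 * sg T w.2) := by
    intro T
    have e2 : wp r I (fun S => if S ∈ J.image ph then 3 * k (ps S) else 0) T =
        ∑ S ∈ I.powerset, (if S ∈ J.image ph then r ^ S.card * (3 * k (ps S)) * ∏ p ∈ S, sg T p else 0) := by
      unfold wp
      refine sum_congr rfl fun S _ => ?_
      by_cases h : S ∈ J.image ph
      · simp only [if_pos h]
      · simp only [if_neg h, mul_zero, zero_mul]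
    rw [e2, hsum]
    refine sum_congr rfl fun w hw => ?_
    obtain ⟨_, _, h3⟩ := hJ w hw
    rw [ps_ph h3]
    unfold ph
    rw [card_pair h3.ne, prod_pair h3.ne, hr]
    ring
  have e3 : ∑ S ∈ I.powerset, (if S ∈ J.image ph then 3 * k (ps S) else 0) ^ 2 = 9 * ∑ w ∈ J, k w ^ 2 := by
    have e4 : ∑ S ∈ I.powerset, (if S ∈ J.image ph then 3 * k (ps S) else 0) ^ 2 =
        ∑ S ∈ I.powerset, (if S ∈ J.image ph then (3 * k (ps S)) ^ 2 else 0) := by
      refine sum_congr rfl fun S _ => ?_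
      by_cases h : S ∈ J.image ph
      · simp only [if_pos h]
      · simp only [if_neg h]
        norm_num
    rw [e4, hsum, mul_sum]
    refine sum_congr rfl fun w hw => ?_
    rw [ps_ph (hJ w hw).2.2]
    ring
  simp only [e1] at hb
  rw [e3] at hb
  refine hb.trans (le_of_eq ?_)
  ring

theorem bon : BON := by
  intro N M Q B hB hLS hM K P hP
  obtain ⟨I, hI⟩ : ∃ I : Finset ℕ, I = (Icc 1 N).filter Nat.Prime := ⟨_, rfl⟩
  have hIp : ∀ p ∈ I, p.Prime ∧ p ≤ N := by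
    intro p hp
    rw [hI, mem_filter, mem_Icc] at hp
    exact ⟨hp.2, hp.1.2⟩
  have hJ : ∀ w ∈ Pr N, w.1 ∈ I ∧ w.2 ∈ I ∧ w.1 < w.2 := by
    intro w hw
    unfold Pr at hw
    rw [mem_filter, mem_product, ← hI] at hw
    exact ⟨hw.1.1, hw.1.2, hw.2⟩
  have e1 : ∀ l ∈ P, (∑ w ∈ Pr N, K w * (js (w.1 : ℤ) l * js (w.2 : ℤ) l)) ^ 4 =
      (∑ i ∈ Pr N ×ˢ Pr N, (K i.1 * K i.2) * js (((i.1.1 * i.1.2) * (i.2.1 * i.2.2) : ℕ) : ℤ) l) ^ 2 := by
    intro l _
    rw [show (4:ℕ) = 2 * 2 by norm_num, pow_mul]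
    congr 1
    rw [sq, sum_mul_sum, sum_product]
    refine sum_congr rfl fun w _ => sum_congr rfl fun w' _ => ?_
    simp only [js_mul]
    ring
  rw [sum_congr rfl e1]
  refine (ls_fam hB hLS (Pr N ×ˢ Pr N) (fun i => (i.1.1 * i.1.2) * (i.2.1 * i.2.2)) (fun i => K i.1 * K i.2) P
    ?_ ?_).trans ?_
  · intro l hl
    obtain ⟨h1, h2, h3, h4⟩ := hP l hl
    refine ⟨h1, h2, h4, fun i hi hd => ?_⟩
    rw [mem_product] at hi
    obtain ⟨a1, a2, _⟩ := hJ i.1 hi.1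
    obtain ⟨b1, b2, _⟩ := hJ i.2 hi.2
    have hno : ∀ p ∈ I, ¬ l ∣ p := by
      intro p hp hlp
      have h5 := hIp p hp
      have := (Nat.prime_dvd_prime_iff_eq h1 h5.1).1 hlp
      omega
    rcases (Nat.Prime.dvd_mul h1).1 hd with h | h <;> rcases (Nat.Prime.dvd_mul h1).1 h with h | h
    · exact hno _ a1 h
    · exact hno _ a2 h
    · exact hno _ b1 h
    · exact hno _ b2 h
  · intro i hi
    rw [mem_product] at hi
    obtain ⟨a1, a2, _⟩ := hJ i.1 hi.1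
    obtain ⟨b1, b2, _⟩ := hJ i.2 hi.2
    constructor
    · exact Nat.mul_pos (Nat.mul_pos (hIp _ a1).1.pos (hIp _ a2).1.pos)
        (Nat.mul_pos (hIp _ b1).1.pos (hIp _ b2).1.pos)
    · refine le_trans ?_ hM
      calc (i.1.1 * i.1.2) * (i.2.1 * i.2.2) ≤ (N * N) * (N * N) :=
            Nat.mul_le_mul (Nat.mul_le_mul (hIp _ a1).2 (hIp _ a2).2) (Nat.mul_le_mul (hIp _ b1).2 (hIp _ b2).2)
        _ = N ^ 4 := by ring
  · refine mul_le_mul_of_nonneg_left ?_ hB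
    have h2 : (0 : ℝ) < 2 ^ I.card := by positivity
    refine le_of_mul_le_mul_left ?_ h2
    have h1 := quad I (Pr N) hJ (fun w => |K w|)
    simp only [sq_abs] at h1
    refine le_trans ?_ h1
    have e2 : ∀ T ∈ I.powerset, (∑ w ∈ Pr N, |K w| * (sg T w.1 * sg T w.2)) ^ 4 =
        ∑ i ∈ Pr N ×ˢ Pr N, ∑ i' ∈ Pr N ×ˢ Pr N, |K i.1 * K i.2| * |K i'.1 * K i'.2| *
          (((sg T i.1.1 * sg T i.1.2) * (sg T i.2.1 * sg T i.2.2)) *
            ((sg T i'.1.1 * sg T i'.1.2) * (sg T i'.2.1 * sg T i'.2.2))) := by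
      intro T _
      have e3 : (∑ w ∈ Pr N, |K w| * (sg T w.1 * sg T w.2)) ^ 2 =
          ∑ i ∈ Pr N ×ˢ Pr N, |K i.1 * K i.2| * ((sg T i.1.1 * sg T i.1.2) * (sg T i.2.1 * sg T i.2.2)) := by
        rw [sq, sum_mul_sum, sum_product]
        refine sum_congr rfl fun w _ => sum_congr rfl fun w' _ => ?_
        simp only [abs_mul]
        ring
      rw [show (4:ℕ) = 2 * 2 by norm_num, pow_mul, e3, sq, sum_mul_sum]
      refine sum_congr rfl fun i _ => sum_congr rfl fun i' _ => ?_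
      ring
    rw [sum_congr rfl e2, sum_comm (s := I.powerset), mul_sum]
    refine sum_le_sum fun i hi => ?_
    rw [sum_comm (s := I.powerset), mul_sum]
    refine sum_le_sum fun i' hi' => ?_
    rw [← mul_sum]
    rw [mem_product] at hi hi'
    obtain ⟨a1, a2, _⟩ := hJ i.1 hi.1
    obtain ⟨b1, b2, _⟩ := hJ i.2 hi.2
    obtain ⟨c1, c2, _⟩ := hJ i'.1 hi'.1
    obtain ⟨d1, d2, _⟩ := hJ i'.2 hi'.2
    have h4 := sg_pair I (fun p hp => (hIp p hp).1) ![i.1.1, i.1.2, i.2.1, i.2.2]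
      ![i'.1.1, i'.1.2, i'.2.1, i'.2.2] (by
        intro j
        fin_cases j
        · exact a1
        · exact a2
        · exact b1
        · exact b2) (by
        intro j
        fin_cases j
        · exact c1
        · exact c2
        · exact d1
        · exact d2)
    simp only [Fin.prod_univ_four, Matrix.cons_val_zero, Matrix.cons_val_one, Matrix.cons_val] at h4
    have e5 : i.1.1 * i.1.2 * i.2.1 * i.2.2 * (i'.1.1 * i'.1.2 * i'.2.1 * i'.2.2) =
        (i.1.1 * i.1.2 * (i.2.1 * i.2.2)) * (i'.1.1 * i'.1.2 * (i'.2.1 * i'.2.2)) := by ring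
    rw [e5] at h4
    calc 2 ^ I.card * (|K i.1 * K i.2| * |K i'.1 * K i'.2| *
          sqi (i.1.1 * i.1.2 * (i.2.1 * i.2.2) * (i'.1.1 * i'.1.2 * (i'.2.1 * i'.2.2)))) =
        (|K i.1 * K i.2| * |K i'.1 * K i'.2|) * (2 ^ I.card *
          sqi (i.1.1 * i.1.2 * (i.2.1 * i.2.2) * (i'.1.1 * i'.1.2 * (i'.2.1 * i'.2.2)))) := by ring
      _ ≤ (|K i.1 * K i.2| * |K i'.1 * K i'.2|) * ∑ T ∈ I.powerset,
          sg T i.1.1 * sg T i.1.2 * sg T i.2.1 * sg T i.2.2 *
            (sg T i'.1.1 * sg T i'.1.2 * sg T i'.2.1 * sg T i'.2.2) :=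
          mul_le_mul_of_nonneg_left h4 (by positivity)
      _ = _ := by
        congr 1
        refine sum_congr rfl fun T _ => ?_
        ring

end Pool.Agent.L0h57.HV.BONM
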